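import Pool.Agent.Lib.MP_144d21_co.XU.Iface
import Mathlib.Analysis.SpecialFunctions.Log.NegMulLog
import Mathlib.Analysis.Complex.ExponentialBounds

/-!
# REAL3: entropy of three colours (helper74)

`ψ t = negMulLog (1-t) - 7/10 negMulLog t ≥ (t - 1/3)/2` on `[0, 3/5]` (three chords and three
tangents); if one variable is larger than `3/5` use the log sum inequality.
-/

namespace Pool.Agent.Xu.H74

open Real

theorem negMulLog_le_tangent {p t : ℝ} (hp : 0 < p) (ht : 0 ≤ t) :
    negMulLog t ≤ -t * log p + p - t := by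
  rcases ht.eq_or_lt with h | h
  · rw [← h]
    simp
    exact hp.le
  · have h1 := log_le_sub_one_of_pos (div_pos hp h)
    rw [log_div hp.ne' h.ne'] at h1
    have h2 := mul_le_mul_of_nonneg_left h1 h.le
    have h3 : t * (p / t - 1) = p - t := by field_simp
    rw [h3] at h2
    unfold negMulLog
    linarith

theorem piece {a b p t : ℝ} (hb : b ≤ 1) (hab : a < b) (ha : 0 ≤ a) (hp : 0 < p)
    (h1 : a ≤ t) (h2 : t ≤ b)
    (ea : (a - 1 / 3) / 2 ≤ negMulLog (1 - a) - 7 / 10 * (-a * log p + p - a))
    (eb : (b - 1 / 3) / 2 ≤ negMulLog (1 - b) - 7 / 10 * (-b * log p + p - b)) :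
    (t - 1 / 3) / 2 ≤ negMulLog (1 - t) - 7 / 10 * negMulLog t := by
  have ht0 : 0 ≤ t := ha.trans h1
  obtain ⟨μ, hμ⟩ : ∃ μ, μ = (t - a) / (b - a) := ⟨_, rfl⟩
  have hba : 0 < b - a := by linarith
  have hμ0 : 0 ≤ μ := by rw [hμ]; exact div_nonneg (by linarith) hba.le
  have hμ1 : μ ≤ 1 := by rw [hμ, div_le_one hba]; linarith
  have hμt : t = (1 - μ) * a + μ * b := by
    have : μ * (b - a) = t - a := by rw [hμ]; field_simp
    linarith
  have hc := concaveOn_negMulLog.2 (Set.mem_Ici.2 (show (0 : ℝ) ≤ 1 - a by linarith))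
    (Set.mem_Ici.2 (show (0 : ℝ) ≤ 1 - b by linarith)) (sub_nonneg.2 hμ1) hμ0 (by ring)
  simp only [smul_eq_mul] at hc
  have e1 : (1 - μ) * (1 - a) + μ * (1 - b) = 1 - t := by rw [hμt]; ring
  rw [e1] at hc
  have ht := negMulLog_le_tangent hp ht0
  have f1 := mul_le_mul_of_nonneg_left ea (sub_nonneg.2 hμ1)
  have f2 := mul_le_mul_of_nonneg_left eb hμ0
  have e2 : -t * log p + p - t = (1 - μ) * (-a * log p + p - a) + μ * (-b * log p + p - b) := by
    rw [hμt]; ring
  rw [e2] at ht
  have e3 : (t - 1 / 3) / 2 = (1 - μ) * ((a - 1 / 3) / 2) + μ * ((b - 1 / 3) / 2) := by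
    rw [hμt]; ring
  rw [e3]
  linarith

theorem log_frac (a b c : ℤ) : log ((2 : ℝ) ^ a * 3 ^ b * 5 ^ c) =
    a * log 2 + b * log 3 + c * log 5 := by
  rw [log_mul (by positivity) (by positivity), log_mul (by positivity) (by positivity), log_zpow,
    log_zpow, log_zpow]

theorem psi_ge {t : ℝ} (h0 : 0 ≤ t) (h1 : t ≤ 3 / 5) :
    (t - 1 / 3) / 2 ≤ negMulLog (1 - t) - 7 / 10 * negMulLog t := by
  have l2 := log_two_gt_d9
  have l2' := log_two_lt_d9
  have l3 := log_three_gt_d9
  have l3' := log_three_lt_d9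
  have l5 := log_five_gt_d9
  have l5' := log_five_lt_d9
  have q1 : log (18 / 25) = log 2 + 2 * log 3 - 2 * log 5 := by
    have := log_frac 1 2 (-2)
    norm_num at this
    rw [this]
    ring
  have q2 : log (12 / 25) = 2 * log 2 + log 3 - 2 * log 5 := by
    have := log_frac 2 1 (-2)
    norm_num at this
    rw [this]
    ring
  have q3 : log (2 / 5) = log 2 - log 5 := by
    have := log_frac 1 0 (-1)
    norm_num at this
    rw [this]
    ring
  have p1 : log (2 / 9) = log 2 - 2 * log 3 := by
    have := log_frac 1 (-2) 0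
    norm_num at this
    rw [this]
    ring
  have p2 : log (3 / 8) = log 3 - 3 * log 2 := by
    have := log_frac (-3) 1 0
    norm_num at this
    rw [this]
    ring
  have p3 : log (9 / 16) = 2 * log 3 - 4 * log 2 := by
    have := log_frac (-4) 2 0
    norm_num at this
    rw [this]
    ring
  have n0 : negMulLog (1 - 0) = 0 := by simp
  have n1 : negMulLog (1 - 7 / 25) = -(18 / 25) * log (18 / 25) := by
    unfold negMulLog; norm_num
  have n2 : negMulLog (1 - 13 / 25) = -(12 / 25) * log (12 / 25) := by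
    unfold negMulLog; norm_num
  have n3 : negMulLog (1 - 3 / 5) = -(2 / 5) * log (2 / 5) := by
    unfold negMulLog; norm_num
  rcases le_total t (7 / 25) with h | h
  · apply piece (a := 0) (b := 7 / 25) (p := 2 / 9) (by norm_num) (by norm_num) le_rfl
      (by norm_num) h0 h
    · rw [n0, p1]; linarith
    · rw [n1, p1, q1]; linarith
  rcases le_total t (13 / 25) with h' | h'
  · apply piece (a := 7 / 25) (b := 13 / 25) (p := 3 / 8) (by norm_num) (by norm_num) (by norm_num)
      (by norm_num) h h'
    · rw [n1, p2, q1]; linarith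
    · rw [n2, p2, q2]; linarith
  · apply piece (a := 13 / 25) (b := 3 / 5) (p := 9 / 16) (by norm_num) (by norm_num) (by norm_num)
      (by norm_num) h' h1
    · rw [n2, p3, q2]; linarith
    · rw [n3, p3, q3]; linarith

/-- the case of a large variable -/
theorem big {x y z : ℝ} (hy : 0 ≤ y) (hz : 0 ≤ z) (hs : x + y + z = 1) (hx : 3 / 5 ≤ x) :
    7 / 10 * (negMulLog x + negMulLog y + negMulLog z) ≤
      negMulLog (x + y) + negMulLog (y + z) + negMulLog (z + x) := by
  obtain ⟨s, hsd⟩ : ∃ s, s = y + z := ⟨_, rfl⟩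
  have hs0 : 0 ≤ s := by linarith
  have hs1 : s ≤ 2 / 5 := by linarith
  have hxs : x = 1 - s := by linarith
  have hxy : x + y = 1 - z := by linarith
  have hzx : z + x = 1 - y := by linarith
  rw [hxy, hzx, ← hsd, hxs]
  -- `negMulLog y + negMulLog z ≤ s log 2 + negMulLog s`
  have h1 : negMulLog y + negMulLog z ≤ negMulLog s + s * log 2 := by
    rcases hs0.eq_or_lt with h | h
    · have hy0 : y = 0 := by linarith
      have hz0 : z = 0 := by linarith
      rw [← h, hy0, hz0]
      simp
    · have a1 := negMulLog_le_tangent (p := s / 2) (by linarith) hy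
      have a2 := negMulLog_le_tangent (p := s / 2) (by linarith) hz
      rw [log_div h.ne' two_ne_zero] at a1 a2
      have e1 : negMulLog s = -s * log s := rfl
      rw [e1]
      have e2 : -y * (log s - log 2) + s / 2 - y + (-z * (log s - log 2) + s / 2 - z) =
          -s * log s + s * log 2 := by rw [hsd]; ring
      linarith
  -- superadditivity
  have h2 : negMulLog (1 - s) ≤ negMulLog (1 - z) + negMulLog (1 - y) := by
    rcases hs0.eq_or_lt with h | h
    · have hy0 : y = 0 := by linarith
      have hz0 : z = 0 := by linarith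
      rw [← h, hy0, hz0]
      simp
    · have key : ∀ t : ℝ, 0 ≤ t → t ≤ s → t / s * negMulLog (1 - s) ≤ negMulLog (1 - t) := by
        intro t ht0 hts
        have hμ0 : 0 ≤ t / s := div_nonneg ht0 h.le
        have hμ1 : t / s ≤ 1 := by rw [div_le_one h]; exact hts
        have hc := concaveOn_negMulLog.2 (Set.mem_Ici.2 (zero_le_one' ℝ))
          (Set.mem_Ici.2 (show (0 : ℝ) ≤ 1 - s by linarith)) (sub_nonneg.2 hμ1) hμ0 (by ring)
        simp only [smul_eq_mul, negMulLog_one, mul_zero, zero_add] at hc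
        have e1 : (1 - t / s) * 1 + t / s * (1 - s) = 1 - t := by
          field_simp
          ring
        rw [e1] at hc
        exact hc
      have k1 := key y hy (by linarith)
      have k2 := key z hz (by linarith)
      have e2 : y / s * negMulLog (1 - s) + z / s * negMulLog (1 - s) = negMulLog (1 - s) := by
        rw [← add_mul, ← add_div, ← hsd, div_self h.ne', one_mul]
      linarith
  -- the binary entropy
  have h3 : 7 / 10 * (s * log 2) ≤ 3 / 10 * (negMulLog s + negMulLog (1 - s)) := by
    have hμ0 : 0 ≤ s * (5 / 2) := by positivity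
    have hμ1 : s * (5 / 2) ≤ 1 := by linarith
    have c1 := concaveOn_negMulLog.2 (Set.mem_Ici.2 (le_refl (0 : ℝ)))
      (Set.mem_Ici.2 (show (0 : ℝ) ≤ 2 / 5 by norm_num)) (sub_nonneg.2 hμ1) hμ0 (by ring)
    have c2 := concaveOn_negMulLog.2 (Set.mem_Ici.2 (zero_le_one' ℝ))
      (Set.mem_Ici.2 (show (0 : ℝ) ≤ 3 / 5 by norm_num)) (sub_nonneg.2 hμ1) hμ0 (by ring)
    simp only [smul_eq_mul, negMulLog_one, negMulLog_zero, mul_zero, zero_add] at c1 c2
    have e1 : s * (5 / 2) * (2 / 5) = s := by ring
    have e2 : (1 - s * (5 / 2)) * 1 + s * (5 / 2) * (3 / 5) = 1 - s := by ring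
    rw [e1] at c1
    rw [e2] at c2
    have l2 := log_two_gt_d9
    have l2' := log_two_lt_d9
    have l3' := log_three_lt_d9
    have l5 := log_five_gt_d9
    have q1 : log (2 / 5) = log 2 - log 5 := by
      have := log_frac 1 0 (-1)
      norm_num at this
      rw [this]
      ring
    have q2 : log (3 / 5) = log 3 - log 5 := by
      have := log_frac 0 1 (-1)
      norm_num at this
      rw [this]
      ring
    have n1 : negMulLog (2 / 5) = -(2 / 5) * log (2 / 5) := rfl
    have n2 : negMulLog (3 / 5) = -(3 / 5) * log (3 / 5) := rfl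
    rw [n1, q1] at c1
    rw [n2, q2] at c2
    have h4 : 0 ≤ s * (5 / 2) * (3 / 10 * (-(2 / 5) * (log 2 - log 5) +
        -(3 / 5) * (log 3 - log 5)) - 7 / 10 * (2 / 5 * log 2)) := by
      apply mul_nonneg hμ0
      linarith
    linarith
  linarith

/-- REAL3 -/
theorem real3 : Real3S := by
  intro x y z hx hy hz hs
  rcases le_total (3 / 5) x with h1 | h1
  · exact big hy hz hs h1
  rcases le_total (3 / 5) y with h2 | h2
  · have := big hz hx (by linarith : y + z + x = 1) h2
    linarith
  rcases le_total (3 / 5) z with h3 | h3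
  · have := big hx hy (by linarith : z + x + y = 1) h3
    linarith
  have a1 := psi_ge hx h1
  have a2 := psi_ge hy h2
  have a3 := psi_ge hz h3
  have e1 : x + y = 1 - z := by linarith
  have e2 : y + z = 1 - x := by linarith
  have e3 : z + x = 1 - y := by linarith
  rw [e1, e2, e3]
  linarith

end Pool.Agent.Xu.H74
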